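import Mathlib

/-!
MP_642fbc_lc: there is no polynomial `P` such that more than half of the words of some length
`l ≤ P(n, m)` are orphans, for every non-surjective range-2 cellular automaton with `n` states and
shortest orphan length `m`.
-/

namespace Pool.Agent.Results.MP_642fbc_lc.NoPolynomial

/-- A word `u` of length `l` is an orphan of the range-2 cellular automaton with local rule `f`:
there is no word `v` of length `l + 1` with `f(v) = u`. -/
def Orphan {S : Type} (f : S → S → S) {l : ℕ} (u : Fin l → S) : Prop :=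
  ¬ ∃ v : Fin (l + 1) → S, ∀ i : Fin l, f (v i.castSucc) (v i.succ) = u i

/-- The lengths of orphans. -/
def orphanLengths {S : Type} (f : S → S → S) : Set ℕ := {l | ∃ u : Fin l → S, Orphan f u}

/-- The length of a shortest orphan. -/
noncomputable def shortest {S : Type} (f : S → S → S) : ℕ := sInf (orphanLengths f)

/-- The proportion of words of length `l` which are orphans. -/
noncomputable def rho {S : Type} (f : S → S → S) (l : ℕ) : ℝ :=
  (Nat.card {u : Fin l → S // Orphan f u} : ℝ) / (Nat.card (Fin l → S) : ℝ)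

section construction

variable {p k K : ℕ}

/-- the states -/
abbrev St (p k K : ℕ) : Type := (Fin (k + 1) → ZMod p) × (Fin (k + 1) → ZMod p) × Fin K

/-- the control is off (it is on iff the last component is `0`) -/
def chi (c : Fin K) : ℕ := if c.val = 0 then 0 else 1

/-- the local rule -/
def rule (s t : St p k K) : St p k K :=
  (Fin.cases (s.1 0) (fun j => t.1 j.succ - s.1 j.castSucc - (chi s.2.2 : ZMod p) * s.2.1 j.castSucc),
    Fin.cases (s.1 (Fin.last k)) (fun j => t.2.1 j.succ - s.2.1 j.castSucc), s.2.2)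

/-- extension to all of `ℕ` -/
def ex (a : Fin (k + 1) → ZMod p) (j : ℕ) : ZMod p := if h : j < k + 1 then a ⟨j, h⟩ else 0

/-- the solution along a diagonal, `x` is the free initial value -/
def sol (u : ℤ → St p k K) (d : ℤ) (x : ZMod p) : ℕ → ZMod p × ZMod p
  | 0 => (ex (u d).1 0, x)
  | j + 1 => ((sol u d x j).1 + (chi (u (d + j)).2.2 : ZMod p) * (sol u d x j).2 +
      ex (u (d + j)).1 (j + 1), (sol u d x j).2 + ex (u (d + j)).2.1 (j + 1))

lemma sol_lin (u : ℤ → St p k K) (d : ℤ) (x : ZMod p) (j : ℕ) :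
    (sol u d x j).2 = (sol u d 0 j).2 + x ∧ (sol u d x j).1 = (sol u d 0 j).1 +
      x * ((∑ i ∈ Finset.range j, chi (u (d + i)).2.2 : ℕ) : ZMod p) := by
  induction j with
  | zero => simp [sol]
  | succ j ih =>
    obtain ⟨h1, h2⟩ := ih
    simp only [sol]
    rw [h1, h2, Finset.sum_range_succ]
    refine ⟨by ring, ?_⟩
    push_cast
    ring

/-- A bi-infinite configuration without `k` consecutive `on` controls has a preimage. -/
lemma exists_pre [Fact p.Prime] (hk : k < p) (u : ℤ → St p k K)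
    (hu : ∀ d : ℤ, ∃ i < k, chi (u (d + i)).2.2 = 1) :
    ∃ v : ℤ → St p k K, ∀ i, rule (v i) (v (i + 1)) = u i := by
  have hx : ∀ d : ℤ, ∃ x : ZMod p, (sol u d x k).1 = (u (d + k)).2.1 0 := by
    intro d
    set N : ℕ := ∑ i ∈ Finset.range k, chi (u (d + i)).2.2 with hN
    have h1 : 0 < N := by
      obtain ⟨i, hi, h⟩ := hu d
      rw [hN]
      apply Finset.sum_pos' (fun _ _ => Nat.zero_le _)
      exact ⟨i, Finset.mem_range.mpr hi, by omega⟩
    have h2 : N ≤ k := by
      rw [hN]
      calc _ ≤ ∑ i ∈ Finset.range k, 1 := by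
            apply Finset.sum_le_sum
            intro i _
            unfold chi
            split_ifs <;> omega
        _ = k := by simp
    have h3 : (N : ZMod p) ≠ 0 := by
      intro h
      rw [ZMod.natCast_eq_zero_iff] at h
      exact absurd (Nat.le_of_dvd h1 h) (by omega)
    refine ⟨((u (d + k)).2.1 0 - (sol u d 0 k).1) / N, ?_⟩
    rw [(sol_lin u d _ k).2, ← hN]
    field_simp
    ring
  choose x hx using hx
  refine ⟨fun i => (fun j => (sol u (i - (j : ℕ)) (x (i - (j : ℕ))) j).1,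
    fun j => (sol u (i - (j : ℕ)) (x (i - (j : ℕ))) j).2, (u i).2.2), fun i => ?_⟩
  have e : ∀ j : ℕ, i + 1 - ((j + 1 : ℕ) : ℤ) = i - j := fun j => by push_cast; ring
  refine Prod.ext ?_ (Prod.ext ?_ rfl)
  · funext j
    refine Fin.cases ?_ (fun j => ?_) j
    · simp [rule, sol, ex]
    · simp only [rule, Fin.cases_succ, Fin.val_succ, Fin.val_castSucc]
      rw [e, sol]
      have h1 : i - ((j : ℕ) : ℤ) + ((j : ℕ) : ℤ) = i := by ring
      rw [h1]
      have h2 : ex (u i).1 (j + 1) = (u i).1 j.succ := by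
        unfold ex
        rw [dif_pos (by omega)]
        rfl
      rw [h2]
      ring
  · funext j
    refine Fin.cases ?_ (fun j => ?_) j
    · simp only [rule, Fin.cases_zero, Fin.val_last]
      rw [hx]
      have h1 : i - (k : ℤ) + (k : ℤ) = i := by ring
      rw [h1]
    · simp only [rule, Fin.cases_succ, Fin.val_succ, Fin.val_castSucc]
      rw [e, sol]
      have h1 : i - ((j : ℕ) : ℤ) + ((j : ℕ) : ℤ) = i := by ring
      rw [h1]
      have h2 : ex (u i).2.1 (j + 1) = (u i).2.1 j.succ := by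
        unfold ex
        rw [dif_pos (by omega)]
        rfl
      rw [h2]
      ring

/-- words with `k` consecutive `on` controls starting at the position `i` -/
def On (k : ℕ) {l : ℕ} (i : Fin l) (u : Fin l → St p k K) : Prop :=
  ∀ j : Fin l, i.val ≤ j.val → j.val < i.val + k → (u j).2.2.val = 0

/-- an orphan has `k` consecutive `on` controls -/
lemma exists_on [Fact p.Prime] (hk : k < p) (hk1 : 1 ≤ k) (hK : 2 ≤ K) {l : ℕ}
    (u : Fin l → St p k K) (hu : Orphan rule u) : ∃ i : Fin l, i.val + k ≤ l ∧ On k i u := by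
  by_contra hcon
  push Not at hcon
  apply hu
  let u' : ℤ → St p k K := fun z =>
    if h : 0 ≤ z ∧ z < l then u ⟨z.toNat, by omega⟩ else (0, 0, ⟨1, hK⟩)
  have h1 : ∀ d : ℤ, ∃ i < k, chi (u' (d + i)).2.2 = 1 := by
    intro d
    have hoff : ∀ z : ℤ, ¬ (0 ≤ z ∧ z < l) → chi (u' z).2.2 = 1 := by
      intro z hz
      simp only [u']
      rw [dif_neg hz]
      rfl
    by_cases h2 : 0 ≤ d ∧ d + k ≤ l
    · obtain ⟨h2, h3⟩ := h2
      lift d to ℕ using h2
      have h4 : d + k ≤ l := by exact_mod_cast h3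
      have h5 := hcon ⟨d, by omega⟩ h4
      unfold On at h5
      push Not at h5
      obtain ⟨j, hj1, hj2, hj3⟩ := h5
      simp only at hj1 hj2
      refine ⟨j.val - d, by omega, ?_⟩
      have h6 : (d : ℤ) + ((j.val - d : ℕ) : ℤ) = j.val := by omega
      rw [h6]
      have h7 : u' (j.val : ℤ) = u j := by
        simp only [u']
        rw [dif_pos ⟨by omega, by exact_mod_cast j.2⟩]
        congr 1
      rw [h7]
      unfold chi
      rw [if_neg hj3]
    · rcases lt_or_ge d 0 with h3 | h3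
      · exact ⟨0, by omega, hoff _ (by simp; omega)⟩
      · have h4 : ¬ (d + k ≤ l) := fun h => h2 ⟨h3, h⟩
        exact ⟨k - 1, by omega, hoff _ (by omega)⟩
  obtain ⟨v, hv⟩ := exists_pre hk u' h1
  refine ⟨fun i => v i.val, fun i => ?_⟩
  have h2 := hv i.val
  have h3 : u' (i.val : ℤ) = u i := by
    simp only [u']
    rw [dif_pos ⟨by omega, by exact_mod_cast i.2⟩]
    congr 1
  rw [h3] at h2
  rw [← h2]
  simp

/-- counting the words with `k` consecutive `on` controls at given positions -/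
lemma card_on [NeZero p] {l : ℕ} (i : Fin l) (hi : i.val + k ≤ l) :
    Nat.card {u : Fin l → St p k K // On k i u} * K ^ k ≤ Nat.card (Fin l → St p k K) := by
  have h1 : K ^ k = Nat.card (Fin k → Fin K) := by simp
  rw [h1, ← Nat.card_prod]
  apply Nat.card_le_card_of_injective (fun t : {u : Fin l → St p k K // On k i u} × (Fin k → Fin K)
    => fun j : Fin l => if h : i.val ≤ j.val ∧ j.val < i.val + k then
      ((t.1.1 j).1, (t.1.1 j).2.1, t.2 ⟨j.val - i.val, by omega⟩) else t.1.1 j)
  rintro ⟨⟨u, hu⟩, g⟩ ⟨⟨u', hu'⟩, g'⟩ h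
  have h2 : u = u' := by
    funext j
    have h3 := congrFun h j
    by_cases hj : i.val ≤ j.val ∧ j.val < i.val + k
    · simp only [dif_pos hj, Prod.mk.injEq] at h3
      have h4 := hu j hj.1 hj.2
      have h5 := hu' j hj.1 hj.2
      exact Prod.ext h3.1 (Prod.ext h3.2.1 (Fin.ext (h4.trans h5.symm)))
    · simp only [dif_neg hj] at h3
      exact h3
  subst h2
  have h3 : g = g' := by
    funext j
    have h4 := congrFun h ⟨i.val + j.val, by omega⟩
    have hj : i.val ≤ i.val + j.val ∧ i.val + j.val < i.val + k := ⟨by omega, by omega⟩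
    simp only [dif_pos hj, Prod.mk.injEq, true_and] at h4
    have h5 : (⟨i.val + j.val - i.val, by omega⟩ : Fin k) = j := Fin.ext (by simp)
    rwa [h5] at h4
  subst h3
  rfl

lemma card_orphan [Fact p.Prime] (hk : k < p) (hk1 : 1 ≤ k) (hK : 2 ≤ K) (l : ℕ) :
    Nat.card {u : Fin l → St p k K // Orphan rule u} * K ^ k ≤
      l * Nat.card (Fin l → St p k K) := by
  classical
  have h0 : {u : Fin l → St p k K | Orphan rule u} ⊆
      ⋃ i ∈ (Finset.univ.filter fun i : Fin l => i.val + k ≤ l), {u | On k i u} := by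
    intro u hu
    obtain ⟨i, h1, h2⟩ := exists_on hk hk1 hK u hu
    simp only [Set.mem_iUnion]
    exact ⟨i, by simpa using h1, h2⟩
  have h1 : Nat.card {u : Fin l → St p k K // Orphan rule u} ≤
      ∑ i ∈ (Finset.univ.filter fun i : Fin l => i.val + k ≤ l),
        Nat.card {u : Fin l → St p k K // On k i u} := by
    calc Nat.card {u : Fin l → St p k K // Orphan rule u}
        = Set.ncard {u : Fin l → St p k K | Orphan rule u} := rfl
      _ ≤ Set.ncard (⋃ i ∈ (Finset.univ.filter fun i : Fin l => i.val + k ≤ l),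
            {u : Fin l → St p k K | On k i u}) := Set.ncard_le_ncard h0 (Set.toFinite _)
      _ ≤ ∑ i ∈ (Finset.univ.filter fun i : Fin l => i.val + k ≤ l),
            Set.ncard {u : Fin l → St p k K | On k i u} :=
          Finset.set_ncard_biUnion_le _ _
      _ = _ := rfl
  calc Nat.card {u : Fin l → St p k K // Orphan rule u} * K ^ k
      ≤ (∑ i ∈ (Finset.univ.filter fun i : Fin l => i.val + k ≤ l),
        Nat.card {u : Fin l → St p k K // On k i u}) * K ^ k := Nat.mul_le_mul_right _ h1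
    _ = ∑ i ∈ (Finset.univ.filter fun i : Fin l => i.val + k ≤ l),
        Nat.card {u : Fin l → St p k K // On k i u} * K ^ k := Finset.sum_mul _ _ _
    _ ≤ ∑ i ∈ (Finset.univ.filter fun i : Fin l => i.val + k ≤ l),
        Nat.card (Fin l → St p k K) := by
          apply Finset.sum_le_sum
          intro i hi
          exact card_on i (by simpa using hi)
    _ ≤ l * Nat.card (Fin l → St p k K) := by
          rw [Finset.sum_const, smul_eq_mul]
          apply Nat.mul_le_mul_right
          exact (Finset.card_filter_le _ _).trans (by simp)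

/-- there is an orphan of length `k + 1` -/
lemma exists_orphan [Fact p.Prime] (hK : 2 ≤ K) :
    ∃ u : Fin (k + 1) → St p k K, Orphan rule u := by
  refine ⟨fun i => (fun j => if i = 0 ∧ j = 0 then 1 else 0, 0, ⟨0, by omega⟩), ?_⟩
  rintro ⟨v, hv⟩
  have hc : ∀ j : Fin (k + 1), (chi (v j.castSucc).2.2 : ZMod p) = 0 := by
    intro j
    have h1 := congrArg (fun s => s.2.2) (hv j)
    simp only [rule] at h1
    rw [h1]
    simp [chi]
  have h1 : ∀ j : ℕ, ∀ hj : j < k + 1, (v ⟨j, by omega⟩).1 ⟨j, hj⟩ = 1 := by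
    intro j
    induction j with
    | zero =>
      intro hj
      have h2 := congrArg (fun s => s.1 0) (hv 0)
      simp only [rule, Fin.cases_zero] at h2
      simpa using h2
    | succ j ih =>
      intro hj
      have h2 := congrArg (fun s => s.1 (⟨j, by omega⟩ : Fin k).succ) (hv ⟨j, by omega⟩)
      simp only [rule, Fin.cases_succ] at h2
      rw [hc, zero_mul, sub_zero] at h2
      have h3 := ih (by omega)
      have h4 : (v (Fin.castSucc ⟨j, by omega⟩)).1 (Fin.castSucc ⟨j, by omega⟩) = 1 := h3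
      rw [h4] at h2
      have h5 : ¬ ((⟨j, by omega⟩ : Fin (k + 1)) = 0 ∧ (⟨j, by omega⟩ : Fin k).succ = 0) := by
        rintro ⟨_, h⟩
        exact Fin.succ_ne_zero _ h
      rw [if_neg h5, sub_eq_zero] at h2
      exact h2
  have h2 := congrArg (fun s => s.2.1 0) (hv (Fin.last k))
  simp only [rule, Fin.cases_zero, Pi.zero_apply] at h2
  have h3 : (v (Fin.castSucc (Fin.last k))).1 (Fin.last k) = 1 := h1 k (by omega)
  rw [h3] at h2
  exact one_ne_zero h2

lemma card_St [NeZero p] : Nat.card (St p k K) = p ^ (2 * (k + 1)) * K := by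
  rw [Nat.card_prod, Nat.card_prod, Nat.card_fun, Nat.card_zmod, Nat.card_fin, Nat.card_fin]
  ring

end construction

/-- A bound of a polynomial. -/
lemma eval_le (P : MvPolynomial (Fin 2) ℝ) (n m : ℕ) (hn : 1 ≤ n) (hm : m ≤ n) :
    MvPolynomial.eval ![(n : ℝ), (m : ℝ)] P ≤
      (∑ s ∈ P.support, |P.coeff s|) * (n : ℝ) ^ P.totalDegree := by
  rw [MvPolynomial.eval_eq', Finset.sum_mul]
  apply Finset.sum_le_sum
  intro s hs
  have hn' : (1 : ℝ) ≤ n := by exact_mod_cast hn
  have hm' : (m : ℝ) ≤ n := by exact_mod_cast hm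
  have h1 : ∏ i, ((![(n : ℝ), (m : ℝ)] : Fin 2 → ℝ) i) ^ s i ≤ (n : ℝ) ^ P.totalDegree := by
    rw [Fin.prod_univ_two]
    simp only [Matrix.cons_val_zero, Matrix.cons_val_one]
    calc (n : ℝ) ^ s 0 * (m : ℝ) ^ s 1 ≤ (n : ℝ) ^ s 0 * (n : ℝ) ^ s 1 := by
          apply mul_le_mul_of_nonneg_left
          · exact pow_le_pow_left₀ (by positivity) hm' _
          · positivity
      _ = (n : ℝ) ^ (s 0 + s 1) := (pow_add _ _ _).symm
      _ ≤ (n : ℝ) ^ P.totalDegree := by
          apply pow_le_pow_right₀ hn'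
          have := MvPolynomial.le_totalDegree hs
          rw [Finsupp.sum_fintype _ _ (fun _ => rfl), Fin.sum_univ_two] at this
          exact this
  have h2 : 0 ≤ ∏ i, ((![(n : ℝ), (m : ℝ)] : Fin 2 → ℝ) i) ^ s i := by
    rw [Fin.prod_univ_two]
    simp only [Matrix.cons_val_zero, Matrix.cons_val_one]
    positivity
  calc P.coeff s * ∏ i, ((![(n : ℝ), (m : ℝ)] : Fin 2 → ℝ) i) ^ s i
      ≤ |P.coeff s| * ∏ i, ((![(n : ℝ), (m : ℝ)] : Fin 2 → ℝ) i) ^ s i :=
        mul_le_mul_of_nonneg_right (le_abs_self _) h2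
    _ ≤ |P.coeff s| * (n : ℝ) ^ P.totalDegree := mul_le_mul_of_nonneg_left h1 (abs_nonneg _)

/-- For every polynomial `P` there is a non-surjective range-2 cellular automaton with `n` states
and shortest orphan length `m` such that at most half of the words of length `l` are orphans, for
all `l ≤ P(n, m)`. -/
theorem result (P : MvPolynomial (Fin 2) ℝ) : ∃ (S : Type) (_ : Finite S) (f : S → S → S),
    (orphanLengths f).Nonempty ∧
    ∀ l : ℕ, (l : ℝ) ≤ MvPolynomial.eval ![(Nat.card S : ℝ), (shortest f : ℝ)] P →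
      rho f l ≤ 1 / 2 := by
  set D := P.totalDegree with hD
  set C : ℝ := ∑ s ∈ P.support, |P.coeff s| with hC
  have hC0 : 0 ≤ C := Finset.sum_nonneg fun _ _ => abs_nonneg _
  obtain ⟨p, hp1, hp2⟩ := Nat.exists_infinite_primes (D + 2)
  have : Fact p.Prime := ⟨hp2⟩
  have hk : D + 1 < p := by omega
  obtain ⟨K0, hK0⟩ := exists_nat_ge (2 * C * ((p : ℝ) ^ (2 * (D + 1 + 1))) ^ D)
  set K := K0 + 2 with hKdef
  have hK : 2 ≤ K := by omega
  have hKR : 2 * C * ((p : ℝ) ^ (2 * (D + 1 + 1))) ^ D ≤ K := by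
    rw [hKdef]; push_cast; linarith
  obtain ⟨u, hu⟩ := exists_orphan (p := p) (k := D + 1) (K := K) hK
  refine ⟨St p (D + 1) K, inferInstance, rule, ⟨_, u, hu⟩, fun l hl => ?_⟩
  have hsh : shortest (rule : St p (D + 1) K → _ → _) ≤ D + 1 + 1 := Nat.sInf_le ⟨u, hu⟩
  have hcard : Nat.card (St p (D + 1) K) = p ^ (2 * (D + 1 + 1)) * K := card_St
  have hn1 : D + 1 + 1 ≤ Nat.card (St p (D + 1) K) := by
    rw [hcard]
    calc D + 1 + 1 ≤ p := hk
      _ = p ^ 1 := (pow_one _).symm
      _ ≤ p ^ (2 * (D + 1 + 1)) := Nat.pow_le_pow_right (by omega) (by omega)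
      _ ≤ p ^ (2 * (D + 1 + 1)) * K := Nat.le_mul_of_pos_right _ (by omega)
  have h1 := hl.trans (eval_le P _ _ (by omega) (hsh.trans hn1))
  rw [← hD, ← hC, hcard] at h1
  push_cast at h1
  rw [mul_pow, ← mul_assoc] at h1
  have hKpos : (0 : ℝ) < K := by exact_mod_cast (by omega : 0 < K)
  have h2 : 2 * (l : ℝ) ≤ (K : ℝ) ^ (D + 1) := by
    calc 2 * (l : ℝ) ≤ 2 * (C * ((p : ℝ) ^ (2 * (D + 1 + 1))) ^ D * (K : ℝ) ^ D) := by linarith
      _ = (2 * C * ((p : ℝ) ^ (2 * (D + 1 + 1))) ^ D) * (K : ℝ) ^ D := by ring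
      _ ≤ K * (K : ℝ) ^ D := mul_le_mul_of_nonneg_right hKR (by positivity)
      _ = (K : ℝ) ^ (D + 1) := by ring
  have h3 := card_orphan (p := p) (k := D + 1) (K := K) hk (by omega) hK l
  have h4 : (Nat.card {u : Fin l → St p (D + 1) K // Orphan rule u} : ℝ) * (K : ℝ) ^ (D + 1) ≤
      l * (Nat.card (Fin l → St p (D + 1) K) : ℝ) := by exact_mod_cast h3
  have hpos : (0 : ℝ) < Nat.card (Fin l → St p (D + 1) K) := by
    have : Nonempty (St p (D + 1) K) := ⟨(0, 0, ⟨0, by omega⟩)⟩
    exact_mod_cast Nat.card_pos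
  unfold rho
  rw [div_le_iff₀ hpos]
  by_contra hcon
  rw [not_le] at hcon
  have h5 : (0 : ℝ) < (K : ℝ) ^ (D + 1) := by positivity
  have h6 : 1 / 2 * (Nat.card (Fin l → St p (D + 1) K) : ℝ) * (K : ℝ) ^ (D + 1) <
      l * (Nat.card (Fin l → St p (D + 1) K) : ℝ) :=
    (mul_lt_mul_of_pos_right hcon h5).trans_le h4
  nlinarith

end Pool.Agent.Results.MP_642fbc_lc.NoPolynomial
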